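import Mathlib
import Pool.Agent.Lib.Z9f173d.Defs

/-!
# Extensions of Følner amenable groups by an infinite cyclic group

If `N` is normalised by `t`, every element of `L` is `x * t ^ k` with `x` in `N`, no nonzero power of
`t` lies in `N` and `N` satisfies the Følner condition, then so does `L`.
-/

set_option autoImplicit false

namespace Z9f173dE

open Finset Z9f173d

theorem natCard_bad {H : Type*} [Group H] [DecidableEq H] (K : Finset H) (s : H) :
    Nat.card {k : H // k ∈ K ∧ s * k ∉ K} = (K.filter fun k => s * k ∉ K).card := by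
  refine Nat.subtype_card _ ?_
  intro x
  rw [mem_filter]

theorem natCard_finset {H : Type*} (K : Finset H) : Nat.card K = K.card := by
  rw [Nat.card_eq_fintype_card, Fintype.card_coe]

/-- at most `|a|` numbers `j < M` are moved out of `[0, M)` by `a` -/
theorem card_out (M : ℕ) (a : ℤ) :
    ((range M).filter fun j : ℕ => ¬ (0 ≤ (j : ℤ) + a ∧ (j : ℤ) + a < M)).card ≤ a.natAbs := by
  rcases le_total 0 a with h | h
  · have h1 : ((range M).filter fun j : ℕ => ¬ (0 ≤ (j : ℤ) + a ∧ (j : ℤ) + a < M)) ⊆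
        Finset.Ico (M - a.natAbs) M := by
      intro j hj
      rw [mem_filter, mem_range] at hj
      rw [mem_Ico]
      omega
    refine (card_le_card h1).trans ?_
    rw [Nat.card_Ico]
    omega
  · have h1 : ((range M).filter fun j : ℕ => ¬ (0 ≤ (j : ℤ) + a ∧ (j : ℤ) + a < M)) ⊆
        range a.natAbs := by
      intro j hj
      rw [mem_filter, mem_range] at hj
      rw [mem_range]
      omega
    refine (card_le_card h1).trans ?_
    rw [card_range]

/-- **Følner amenability of an extension by an infinite cyclic group.** -/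
theorem foelner_ext {G : Type*} [Group G] (N L : Subgroup G) (t : G)
    (hN : Z9f173d.FoelnerAmenable N) (htL : t ∈ L) (hNL : N ≤ L)
    (hconj : ∀ (k : ℤ), ∀ x ∈ N, t ^ (-k) * x * t ^ k ∈ N)
    (hgen : ∀ g ∈ L, ∃ (k : ℤ), ∃ x ∈ N, g = x * t ^ k)
    (hinf : ∀ k : ℤ, t ^ k ∈ N → k = 0) : Z9f173d.FoelnerAmenable L := by
  classical
  intro S ε hε
  have hgen' : ∀ s : L, ∃ (k : ℤ), ∃ x ∈ N, (s : G) = x * t ^ k := fun s => hgen s s.2
  choose a x hx hs using hgen'
  -- the size of the exponents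
  obtain ⟨A, hA⟩ : ∃ A : ℕ, ∀ s ∈ S, (a s).natAbs ≤ A :=
    ⟨S.sup fun s => (a s).natAbs, fun s hsS => Finset.le_sup (f := fun s => (a s).natAbs) hsS⟩
  obtain ⟨M0, hM0⟩ := exists_nat_ge (2 * (A : ℝ) / ε)
  set M : ℕ := M0 + 1 with hM
  have hMpos : 0 < M := Nat.succ_pos _
  have hMR : (0 : ℝ) < M := by exact_mod_cast hMpos
  have hAM : (A : ℝ) ≤ ε / 2 * M := by
    have h1 : 2 * (A : ℝ) / ε ≤ M := by
      refine hM0.trans ?_
      rw [hM]
      push_cast
      linarith
    rw [div_le_iff₀ hε] at h1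
    linarith
  -- the conjugates
  set u : L → ℕ → N := fun s i => ⟨t ^ (-(i : ℤ)) * x s * t ^ (i : ℤ), hconj i (x s) (hx s)⟩ with hu
  obtain ⟨F, hFne, hF⟩ := hN ((S ×ˢ range M).image fun z => u z.1 z.2) (ε / 2) (by positivity)
  -- the set `K`
  set φ : ℕ × N → L := fun z => ⟨t ^ z.1 * (z.2 : G), L.mul_mem (L.pow_mem htL _) (hNL z.2.2)⟩
    with hφ
  have hinj : Function.Injective φ := by
    rintro ⟨j, f⟩ ⟨j', f'⟩ h
    have h1 : t ^ j * (f : G) = t ^ j' * (f' : G) := congrArg Subtype.val h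
    have h2 : t ^ ((j : ℤ) - j') = (f' : G) * (f : G)⁻¹ := by
      have h3 : t ^ ((j : ℤ) - j') = (t ^ j')⁻¹ * t ^ j := by
        rw [← zpow_natCast, ← zpow_natCast, ← zpow_neg, ← zpow_add]
        congr 1
        ring
      rw [h3, eq_mul_inv_iff_mul_eq, mul_assoc, h1, inv_mul_cancel_left]
    have h4 : (j : ℤ) - j' = 0 := by
      apply hinf
      rw [h2]
      exact N.mul_mem f'.2 (N.inv_mem f.2)
    have h5 : j = j' := by omega
    subst h5
    have h6 : (f : G) = (f' : G) := mul_left_cancel h1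
    rw [Prod.mk.injEq]
    exact ⟨rfl, Subtype.ext h6⟩
  set K : Finset L := (range M ×ˢ F).image φ with hK
  have hKcard : K.card = M * F.card := by
    rw [hK, card_image_of_injective _ hinj, card_product, card_range]
  refine ⟨K, ?_, ?_⟩
  · obtain ⟨f, hf⟩ := hFne
    exact ⟨φ (0, f), mem_image_of_mem φ (mem_product.2 ⟨mem_range.2 hMpos, hf⟩)⟩
  intro s hsS
  rw [natCard_bad, natCard_finset, hKcard]
  -- the bad pairs
  set P : Finset (ℕ × N) := (range M ×ˢ F).filter fun z => s * φ z ∉ K with hP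
  have h1 : (K.filter fun k => s * k ∉ K).card ≤ P.card := by
    have h2 : (K.filter fun k => s * k ∉ K) ⊆ P.image φ := by
      intro k hk
      rw [mem_filter] at hk
      obtain ⟨z, hz, rfl⟩ := mem_image.1 hk.1
      exact mem_image_of_mem φ (mem_filter.2 ⟨hz, hk.2⟩)
    exact (card_le_card h2).trans card_image_le
  set J : Finset ℕ := (range M).filter fun j : ℕ => ¬ (0 ≤ (j : ℤ) + a s ∧ (j : ℤ) + a s < M)
    with hJ
  set B : Finset (Σ _ : ℕ, N) := (range M).sigma fun i => F.filter fun f => u s i * f ∉ F with hB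
  have h3 : P ⊆ (J ×ˢ F) ∪ (P.filter fun z => 0 ≤ (z.1 : ℤ) + a s ∧ (z.1 : ℤ) + a s < M) := by
    intro z hz
    rw [mem_union]
    by_cases h : 0 ≤ (z.1 : ℤ) + a s ∧ (z.1 : ℤ) + a s < M
    · exact Or.inr (mem_filter.2 ⟨hz, h⟩)
    · left
      have hz' := (mem_filter.1 hz).1
      rw [mem_product] at hz' ⊢
      exact ⟨mem_filter.2 ⟨hz'.1, h⟩, hz'.2⟩
  have h4 : (P.filter fun z => 0 ≤ (z.1 : ℤ) + a s ∧ (z.1 : ℤ) + a s < M).card ≤ B.card := by
    refine card_le_card_of_injOn (fun z => (⟨((z.1 : ℤ) + a s).toNat, z.2⟩ : Σ _ : ℕ, N)) ?_ ?_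
    · intro z hz
      have hz1 := mem_filter.1 (mem_coe.1 hz)
      have hz2 := mem_filter.1 hz1.1
      have hz3 := mem_product.1 hz2.1
      obtain ⟨i, hi⟩ : ∃ i : ℕ, (z.1 : ℤ) + a s = i := ⟨((z.1 : ℤ) + a s).toNat, by
        rw [Int.toNat_of_nonneg hz1.2.1]⟩
      have hiM : i < M := by
        have := hz1.2.2
        rw [hi] at this
        exact_mod_cast this
      rw [mem_coe, hB, mem_sigma]
      simp only
      rw [hi, Int.toNat_natCast]
      refine ⟨mem_range.2 hiM, mem_filter.2 ⟨hz3.2, ?_⟩⟩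
      intro hmem
      apply hz2.2
      rw [hK]
      refine mem_image.2 ⟨(i, u s i * z.2), mem_product.2 ⟨mem_range.2 hiM, hmem⟩, ?_⟩
      apply Subtype.ext
      change t ^ i * ((u s i * z.2 : N) : G) = (s : G) * (t ^ z.1 * (z.2 : G))
      have e1 : ((u s i * z.2 : N) : G) = t ^ (-(i : ℤ)) * x s * t ^ (i : ℤ) * (z.2 : G) := rfl
      have e2 : t ^ i = t ^ (i : ℤ) := (zpow_natCast t i).symm
      have e3 : t ^ z.1 = t ^ ((i : ℤ) - a s) := by
        rw [← zpow_natCast]
        congr 1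
        omega
      rw [e1, e2, e3, hs s, zpow_sub, zpow_neg]
      group
    · intro z hz z' hz' h
      have hz1 := (mem_filter.1 (mem_coe.1 hz)).2
      have hz1' := (mem_filter.1 (mem_coe.1 hz')).2
      simp only [Sigma.mk.injEq, heq_eq_eq] at h
      refine Prod.ext ?_ h.2
      have := h.1
      omega
  have h5 : B.card = ∑ i ∈ range M, (F.filter fun f => u s i * f ∉ F).card := by
    rw [hB, card_sigma]
  have h6 : ∀ i ∈ range M, ((F.filter fun f => u s i * f ∉ F).card : ℝ) ≤ ε / 2 * F.card := by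
    intro i hi
    have h7 := hF (u s i) (mem_image.2 ⟨(s, i), mem_product.2 ⟨hsS, hi⟩, rfl⟩)
    rw [natCard_bad, natCard_finset] at h7
    exact h7
  have h8 : (B.card : ℝ) ≤ M * (ε / 2 * F.card) := by
    rw [h5]
    push_cast
    refine (sum_le_sum h6).trans ?_
    rw [sum_const, card_range, nsmul_eq_mul]
  have h9 : (J.card : ℝ) ≤ ε / 2 * M := by
    have h10 : J.card ≤ (a s).natAbs := card_out M (a s)
    have h11 : J.card ≤ A := h10.trans (hA s hsS)
    have h12 : (J.card : ℝ) ≤ A := by exact_mod_cast h11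
    linarith
  have h13 : P.card ≤ J.card * F.card + B.card := by
    refine (card_le_card h3).trans ((card_union_le _ _).trans ?_)
    rw [card_product]
    omega
  have h14 : (P.card : ℝ) ≤ J.card * F.card + B.card := by exact_mod_cast h13
  have hF0 : (0 : ℝ) ≤ F.card := Nat.cast_nonneg _
  have h15 : (J.card : ℝ) * F.card ≤ ε / 2 * M * F.card := mul_le_mul_of_nonneg_right h9 hF0
  have h16 : ((K.filter fun k => s * k ∉ K).card : ℝ) ≤ P.card := by exact_mod_cast h1
  push_cast
  linarith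

end Z9f173dE
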